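import Pool.Agent.H47.QG.Sard
import Pool.Agent.H10.TU.Tay

/-!
# Project TU: small perturbations near an isolated critical point
-/

set_option autoImplicit false

open Module QuadraticForm Filter Topology

namespace Pool.Agent.H18.TU

open Pool.Agent.H47.QG
open Pool.Agent.H10.TU (D2)

section D2

variable {E : Type*} [NormedAddCommGroup E] [NormedSpace ℝ E]

theorem nn_zero : ‖(0 : E →L[ℝ] E →L[ℝ] ℝ)‖ = 0 := @norm_zero (E →L[ℝ] E →L[ℝ] ℝ) _
theorem nn_neg (A : E →L[ℝ] E →L[ℝ] ℝ) : ‖-A‖ = ‖A‖ := @norm_neg (E →L[ℝ] E →L[ℝ] ℝ) _ A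
theorem nn_nonneg (A : E →L[ℝ] E →L[ℝ] ℝ) : 0 ≤ ‖A‖ := @norm_nonneg (E →L[ℝ] E →L[ℝ] ℝ) _ A
theorem nn_add (A B : E →L[ℝ] E →L[ℝ] ℝ) : ‖A + B‖ ≤ ‖A‖ + ‖B‖ := @norm_add_le (E →L[ℝ] E →L[ℝ] ℝ) _ A B
theorem nn_sub (A B : E →L[ℝ] E →L[ℝ] ℝ) : ‖A - B - A‖ = ‖B‖ := by
  have : A - B - A = -B := sub_sub_cancel_left A B
  rw [this, nn_neg]
theorem nn_add_sub (A B : E →L[ℝ] E →L[ℝ] ℝ) : ‖A + B - A‖ = ‖B‖ := by
  have : A + B - A = B := add_sub_cancel_left A B
  rw [this]
theorem nn_tri (A B C : E →L[ℝ] E →L[ℝ] ℝ) : ‖A - C‖ ≤ ‖A - B‖ + ‖B - C‖ := by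
  have : A - C = (A - B) + (B - C) := (sub_add_sub_cancel A B C).symm
  rw [this]
  exact nn_add _ _
theorem nn_self (A : E →L[ℝ] E →L[ℝ] ℝ) : ‖A - A‖ = 0 := by
  have : A - A = 0 := sub_self A
  rw [this, nn_zero]
theorem nn_smul (c : ℝ) (A : E →L[ℝ] E →L[ℝ] ℝ) : ‖c • A‖ ≤ |c| * ‖A‖ := 
  ContinuousLinearMap.opNorm_smul_le c A
theorem nn_sum {κ : Type*} (s : Finset κ) (A : κ → E →L[ℝ] E →L[ℝ] ℝ) :
    ‖∑ i ∈ s, A i‖ ≤ ∑ i ∈ s, ‖A i‖ := by
  classical
  induction s using Finset.induction_on with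
  | empty => 
    rw [Finset.sum_empty, Finset.sum_empty, nn_zero]
  | insert i s hi ih =>
    rw [Finset.sum_insert hi, Finset.sum_insert hi]
    exact (nn_add _ _).trans (by linarith)
theorem PertE_diff {f : E → ℝ} (hf : ContDiff ℝ 2 f) : Differentiable ℝ (fderiv ℝ f) :=
  (hf.fderiv_right (m := 1) (by norm_num)).differentiable one_ne_zero

theorem D2_fsub {f g : E → ℝ} (hf : ContDiff ℝ 2 f) (hg : ContDiff ℝ 2 g) (y : E) :
    D2 (fun x => f x - g x) y = D2 f y - D2 g y := by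
  have h1 : fderiv ℝ (fun x => f x - g x) = fun x => fderiv ℝ f x - fderiv ℝ g x := by
    funext x
    exact fderiv_fun_sub (hf.differentiable two_ne_zero x) (hg.differentiable two_ne_zero x)
  show fderiv ℝ (fderiv ℝ fun x => f x - g x) y = _
  rw [h1]
  exact fderiv_fun_sub (PertE_diff hf y) (PertE_diff hg y)

theorem D2_fadd {f g : E → ℝ} (hf : ContDiff ℝ 2 f) (hg : ContDiff ℝ 2 g) (y : E) :
    D2 (fun x => f x + g x) y = D2 f y + D2 g y := by
  have h1 : fderiv ℝ (fun x => f x + g x) = fun x => fderiv ℝ f x + fderiv ℝ g x := by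
    funext x
    exact fderiv_fun_add (hf.differentiable two_ne_zero x) (hg.differentiable two_ne_zero x)
  show fderiv ℝ (fderiv ℝ fun x => f x + g x) y = _
  rw [h1]
  exact fderiv_fun_add (PertE_diff hf y) (PertE_diff hg y)

theorem D2_cmul {f : E → ℝ} (hf : ContDiff ℝ 2 f) (c : ℝ) (y : E) :
    D2 (fun x => c * f x) y = c • D2 f y := by
  have h1 : fderiv ℝ (fun x => c * f x) = fun x => c • fderiv ℝ f x := by
    funext x
    exact fderiv_const_mul (hf.differentiable two_ne_zero x) c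
  show fderiv ℝ (fderiv ℝ fun x => c * f x) y = _
  rw [h1]
  exact fderiv_fun_const_smul (PertE_diff hf y) c

theorem D2_fsum {κ : Type*} (s : Finset κ) {f : κ → E → ℝ} (hf : ∀ i, ContDiff ℝ 2 (f i)) (y : E) :
    D2 (fun x => ∑ i ∈ s, f i x) y = ∑ i ∈ s, D2 (f i) y := by
  have h1 : fderiv ℝ (fun x => ∑ i ∈ s, f i x) = fun x => ∑ i ∈ s, fderiv ℝ (f i) x := by
    funext x
    exact fderiv_fun_sum fun i _ => (hf i).differentiable two_ne_zero x
  show fderiv ℝ (fderiv ℝ fun x => ∑ i ∈ s, f i x) y = _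
  rw [h1]
  exact fderiv_fun_sum fun i _ => PertE_diff (hf i) y

theorem D2_cont {f : E → ℝ} (hf : ContDiff ℝ 2 f) : Continuous (D2 f) :=
    (hf.fderiv_right (m := 1) (by norm_num)).continuous_fderiv one_ne_zero

theorem D2_cpt {f : E → ℝ} (hc : HasCompactSupport f) : HasCompactSupport (D2 f) :=
  HasCompactSupport.fderiv ℝ (HasCompactSupport.fderiv ℝ hc)

theorem D2_bdd {f : E → ℝ} (hf : ContDiff ℝ 2 f) (hc : HasCompactSupport f) :
    ∃ C, 0 ≤ C ∧ ∀ y, ‖D2 f y‖ ≤ C := by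
  have h1 := @Continuous.bounded_above_of_compact_support E (E →L[ℝ] E →L[ℝ] ℝ) _ _ (D2 f) (D2_cont hf) (D2_cpt hc)
  obtain ⟨C, hC⟩ := h1
  exact ⟨C, (nn_nonneg (D2 f 0)).trans (hC 0), hC⟩

end D2

/-- the second derivatives of the cut-off linear functions -/
theorem pert_D2 {ι : Type*} [Fintype ι] {χ : (ι → ℝ) → ℝ} (hχ : ContDiff ℝ 2 χ)
    (hc : HasCompactSupport χ) (z : ι → ℝ) :
    ∃ C, 0 ≤ C ∧ ∀ a y : ι → ℝ, ‖D2 (fun x => χ x * SardL a (x - z)) y‖ ≤ C * ‖a‖ := by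
  have h1 : ∀ i, ContDiff ℝ 2 fun x : ι → ℝ => χ x * (x i - z i) := fun i =>
    hχ.mul ((contDiff_apply ℝ ℝ i).sub contDiff_const)
  have h2 : ∀ i, ∃ C, 0 ≤ C ∧ ∀ y, ‖D2 (fun x : ι → ℝ => χ x * (x i - z i)) y‖ ≤ C := fun i =>
    D2_bdd (h1 i) hc.mul_right
  choose C hC0 hC using h2
  refine ⟨∑ i, C i, Finset.sum_nonneg fun i _ => hC0 i, fun a y => ?_⟩
  have h3 : (fun x => χ x * SardL a (x - z)) =
      fun x => ∑ i, a i * (χ x * (x i - z i)) := by
    funext x
    rw [Sard_L_apply, Finset.mul_sum]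
    refine Finset.sum_congr rfl fun i _ => ?_
    rw [Pi.sub_apply]
    ring
  rw [h3, D2_fsum _ fun i => contDiff_const.mul (h1 i), Finset.sum_mul]
  refine (nn_sum _ _).trans (Finset.sum_le_sum fun i _ => ?_)
  rw [D2_cmul (h1 i)]
  refine (nn_smul _ _).trans ?_
  rw [mul_comm]
  exact mul_le_mul (hC i y) (norm_le_pi_norm a i) (abs_nonneg _) (hC0 i)

/-- **Small perturbations** (compare `Pool.Agent.H47.QG.perturb`): `g` is close to `f`, near its
critical points it is `f` minus a small linear function plus a constant. -/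
theorem perturbE {ι : Type*} [Fintype ι] [DecidableEq ι] (f : (ι → ℝ) → ℝ) (hf : ContDiff ℝ 2 f)
    (z : ι → ℝ) (r : ℝ) (hr : 0 < r) (ε : ℝ) (hε : 0 < ε)
    (hz : ∀ x ∈ Metric.closedBall z r, fderiv ℝ f x = 0 → x = z) :
    ∃ (g : (ι → ℝ) → ℝ) (X : Finset (ι → ℝ)), LD f z r g X ∧ (∀ y, |g y - f y| ≤ ε) ∧
      (∀ y, ‖D2 g y - D2 f y‖ ≤ ε) ∧ ∀ x ∈ X, (∀ v, |hess g x v - hess f z v| ≤ ε * ‖v‖ ^ 2) ∧
        ∃ A : (ι → ℝ) →L[ℝ] ℝ, ‖A‖ ≤ ε ∧ ∃ t : ℝ, ∀ᶠ y in 𝓝 x, g y = f y - A y + t := by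
  by_cases hcrit : fderiv ℝ f z = 0
  swap
  · refine ⟨f, ∅, ⟨hf, fun _ _ => rfl, fun y hy => ⟨fun h => ?_, fun h => ?_⟩, ?_, ?_, ?_, ?_⟩,
      fun y => by rw [sub_self, abs_zero]; exact hε.le,
      fun y => by rw [nn_self]; exact hε.le, fun x hx => absurd hx (Finset.notMem_empty x)⟩
    · rw [hz y hy h] at h
      exact absurd h hcrit
    · simp at h
    all_goals simp
  obtain ⟨δ₀, hδ₀, hsemi₀⟩ := sigNeg_semicont (hess f z)
  obtain ⟨ρ₀, hρ₀, hcont⟩ := Sard_hess_cont hf z (min δ₀ ε) (lt_min hδ₀ hε)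
  -- the radius
  let ρ : ℝ := min ρ₀ (r / 8)
  have hρ : 0 < ρ := lt_min hρ₀ (by linarith)
  have hρ1 : ρ ≤ ρ₀ := min_le_left _ _
  have hρ2 : ρ ≤ r / 8 := min_le_right _ _
  -- cut-off function
  let χ : ContDiffBump z := ⟨r / 8, r / 4, by linarith, by linarith⟩
  have hχ : ContDiff ℝ 2 (χ : (ι → ℝ) → ℝ) := χ.contDiff
  obtain ⟨C, hC⟩ := (isCompact_closedBall z r).exists_bound_of_continuousOn
    (hχ.continuous_fderiv two_ne_zero).continuousOn
  have hC0 : 0 ≤ C := (norm_nonneg _).trans (hC z (Metric.mem_closedBall_self hr.le))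
  -- the lower bound on the shell
  obtain ⟨c, hc, hshell⟩ : ∃ c > 0, ∀ y ∈ Metric.closedBall z r, ρ ≤ dist y z →
      c ≤ ‖fderiv ℝ f y‖ := by
    let K : Set (ι → ℝ) := {y | y ∈ Metric.closedBall z r ∧ ρ ≤ dist y z}
    have hK : IsCompact K := (isCompact_closedBall z r).inter_right
      (isClosed_le continuous_const (continuous_id.dist continuous_const))
    rcases K.eq_empty_or_nonempty with hE | hE
    · refine ⟨1, one_pos, fun y hy1 hy2 => ?_⟩
      have h1 : y ∈ K := ⟨hy1, hy2⟩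
      rw [hE] at h1
      exact absurd h1 (Set.notMem_empty y)
    · obtain ⟨y₀, hy₀, hmin⟩ := hK.exists_isMinOn hE
        ((hf.continuous_fderiv two_ne_zero).norm.continuousOn)
      refine ⟨‖fderiv ℝ f y₀‖, ?_, fun y hy1 hy2 => hmin (a := y) ⟨hy1, hy2⟩⟩
      rw [gt_iff_lt, norm_pos_iff]
      intro h0
      have h1 := hz y₀ hy₀.1 h0
      have h2 := hy₀.2
      rw [h1, dist_self] at h2
      linarith
  -- the regular value
  obtain ⟨C2, hC20, hC2⟩ := pert_D2 hχ χ.hasCompactSupport z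
  let D : ℝ := Fintype.card ι * (1 + r * C) + Fintype.card ι * (1 + r) + C2 + 1
  have hD : 0 < D := by positivity
  obtain ⟨a, ha0, ha2⟩ := exists_regular_value (SardG f) (Sard_contDiff_G hf) (min c ε / D)
    (div_pos (lt_min hc hε) hD)
  have ha1 : ‖a‖ < c / D := ha0.trans_le (by gcongr; exact min_le_left _ _)
  have hal2 : ‖SardL a‖ * (1 + r) ≤ ε := by
    have h1 := Sard_L_norm a
    have h2 : (Fintype.card ι : ℝ) * (1 + r) * ‖a‖ ≤ D * ‖a‖ := by
      have : (Fintype.card ι : ℝ) * (1 + r) ≤ D := by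
        have h3 : 0 ≤ (Fintype.card ι : ℝ) * (1 + r * C) := by positivity
        simp only [D]
        linarith
      exact mul_le_mul_of_nonneg_right this (norm_nonneg a)
    have h3 : D * ‖a‖ < ε := by
      have h4 : ‖a‖ < ε / D := ha0.trans_le (by gcongr; exact min_le_right _ _)
      rw [lt_div_iff₀ hD] at h4
      linarith
    have h4 : ‖SardL a‖ * (1 + r) ≤ Fintype.card ι * ‖a‖ * (1 + r) :=
      mul_le_mul_of_nonneg_right h1 (by positivity)
    calc ‖SardL a‖ * (1 + r) ≤ Fintype.card ι * ‖a‖ * (1 + r) := h4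
      _ = Fintype.card ι * (1 + r) * ‖a‖ := by ring
      _ ≤ D * ‖a‖ := h2
      _ ≤ ε := h3.le
  have hal3 : C2 * ‖a‖ ≤ ε := by
    have h2 : C2 * ‖a‖ ≤ D * ‖a‖ := by
      have : C2 ≤ D := by
        have h3 : 0 ≤ (Fintype.card ι : ℝ) * (1 + r * C) := by positivity
        have h4 : 0 ≤ (Fintype.card ι : ℝ) * (1 + r) := by positivity
        simp only [D]
        linarith
      exact mul_le_mul_of_nonneg_right this (norm_nonneg a)
    have h4 : ‖a‖ < ε / D := ha0.trans_le (by gcongr; exact min_le_right _ _)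
    rw [lt_div_iff₀ hD] at h4
    linarith
  have hal : ‖SardL a‖ * (1 + r * C) < c := by
    have h1 := Sard_L_norm a
    have h2 : (Fintype.card ι : ℝ) * (1 + r * C) * ‖a‖ ≤ D * ‖a‖ := by
      have : (Fintype.card ι : ℝ) * (1 + r * C) ≤ D := by
        have h3 : 0 ≤ (Fintype.card ι : ℝ) * (1 + r) := by positivity
        simp only [D]
        linarith
      exact mul_le_mul_of_nonneg_right this (norm_nonneg a)
    have h3 : D * ‖a‖ < c := by
      rw [lt_div_iff₀ hD] at ha1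
      linarith
    have h4 : ‖SardL a‖ * (1 + r * C) ≤ Fintype.card ι * ‖a‖ * (1 + r * C) :=
      mul_le_mul_of_nonneg_right h1 (by positivity)
    calc ‖SardL a‖ * (1 + r * C) ≤ Fintype.card ι * ‖a‖ * (1 + r * C) := h4
      _ = Fintype.card ι * (1 + r * C) * ‖a‖ := by ring
      _ ≤ D * ‖a‖ := h2
      _ < c := h3
  let g : (ι → ℝ) → ℝ := fun x => f x - χ x * SardL a (x - z)
  have hg : ContDiff ℝ 2 g := by
    refine hf.sub (hχ.mul ?_)
    exact (SardL a).contDiff.comp (contDiff_id.sub contDiff_const)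
  have hgd : ∀ y, fderiv ℝ g y =
      fderiv ℝ f y - (χ y • SardL a + SardL a (y - z) • fderiv ℝ χ y) :=
    Sard_fderiv hf hχ z a
  -- outside
  have hout : ∀ y ∈ Metric.closedBall z r, ρ ≤ dist y z → fderiv ℝ g y ≠ 0 := by
    intro y hy hy2 h0
    rw [hgd, sub_eq_zero] at h0
    have h1 := hshell y hy hy2
    rw [h0] at h1
    have h2 : ‖χ y • SardL a + SardL a (y - z) • fderiv ℝ χ y‖ ≤ ‖SardL a‖ * (1 + r * C) := by
      refine (norm_add_le _ _).trans ?_
      rw [norm_smul, norm_smul]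
      have h3 : ‖χ y‖ ≤ 1 := by
        rw [Real.norm_eq_abs, abs_of_nonneg χ.nonneg]
        exact χ.le_one
      have h4 : ‖SardL a (y - z)‖ ≤ ‖SardL a‖ * r := by
        refine ((SardL a).le_opNorm _).trans ?_
        rw [Metric.mem_closedBall, dist_eq_norm] at hy
        gcongr
      have h5 := hC y hy
      calc ‖χ y‖ * ‖SardL a‖ + ‖SardL a (y - z)‖ * ‖fderiv ℝ χ y‖
          ≤ 1 * ‖SardL a‖ + (‖SardL a‖ * r) * C := by gcongr
        _ = ‖SardL a‖ * (1 + r * C) := by ring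
    linarith
  -- inside
  have hin : ∀ y ∈ Metric.ball z ρ, fderiv ℝ g y = fderiv ℝ f y - SardL a := by
    intro y hy
    have h1 : (χ : (ι → ℝ) → ℝ) =ᶠ[nhds y] fun _ => (1 : ℝ) := by
      filter_upwards [Metric.isOpen_ball.mem_nhds hy] with w hw
      apply χ.one_of_mem_closedBall
      rw [Metric.mem_ball] at hw
      rw [Metric.mem_closedBall]
      exact hw.le.trans hρ2
    have h2 : χ y = 1 := h1.self_of_nhds
    rw [hgd, h1.fderiv_eq, h2, fderiv_const_apply, one_smul, smul_zero, add_zero]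
  have hhess : ∀ y ∈ Metric.ball z ρ, hess g y = hess f y := by
    intro y hy
    apply Sard_hess_sub (L := SardL a)
    filter_upwards [Metric.isOpen_ball.mem_nhds hy] with w hw
    exact hin w hw
  have hfin := Sard_finite hf ha2 (isCompact_closedBall z r)
  have hX : {y | y ∈ Metric.ball z ρ ∧ SardG f y = a}.Finite := by
    apply hfin.subset
    intro y hy
    refine ⟨?_, hy.2⟩
    have h1 := hy.1
    rw [Metric.mem_ball] at h1
    rw [Metric.mem_closedBall]
    linarith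
  have hmem : ∀ y, y ∈ hX.toFinset ↔ y ∈ Metric.ball z ρ ∧ SardG f y = a := by
    intro y
    rw [Set.Finite.mem_toFinset]
    rfl
  have hlo : ∀ y ∈ Metric.ball z ρ, sigNeg (hess f z) ≤ sigNeg (hess g y) ∧
      sigPos (hess f z) ≤ sigPos (hess g y) := by
    intro y hy
    rw [hhess y hy]
    apply hsemi₀
    intro v
    refine (hcont y ?_ v).trans ?_
    · rw [Metric.mem_ball] at hy
      linarith
    · gcongr
      exact min_le_left _ _
  have hnd : ∀ y ∈ hX.toFinset, sigNeg (hess g y) + sigPos (hess g y) = Fintype.card ι := by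
    intro y hy
    rw [hmem] at hy
    rw [hhess y hy.1]
    exact Sard_nd hf (ha2 y hy.2)
  refine ⟨g, hX.toFinset, ⟨hg, ?_, ?_, ?_, hnd, ?_, ?_⟩, ?_, ?_, ?_⟩
  · intro y hy
    have h1 : χ y = 0 := by
      apply χ.zero_of_le_dist
      rw [Metric.mem_closedBall, not_le] at hy
      change r / 4 ≤ dist y z
      linarith
    simp only [g]
    rw [h1, zero_mul, sub_zero]
  · intro y hy
    rw [hmem]
    constructor
    · intro h0
      have h1 : y ∈ Metric.ball z ρ := by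
        by_contra h
        rw [Metric.mem_ball, not_lt] at h
        exact hout y hy h h0
      refine ⟨h1, ?_⟩
      rw [hin y h1, sub_eq_zero] at h0
      unfold SardG
      rw [h0, Sard_P_L]
    · rintro ⟨h1, h2⟩
      rw [hin y h1, sub_eq_zero]
      apply Sard_P_inj
      rw [Sard_P_L]
      exact h2
  · intro y hy
    rw [hmem] at hy
    have h1 := hy.1
    rw [Metric.mem_ball] at h1 ⊢
    linarith
  · intro y hy
    exact (hlo y ((hmem y).1 hy).1).1
  · intro y hy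
    have h1 := hnd y hy
    have h2 := (hlo y ((hmem y).1 hy).1).2
    omega
  · intro y
    simp only [g]
    rw [show f y - χ y * SardL a (y - z) - f y = -(χ y * SardL a (y - z)) by ring, abs_neg]
    by_cases hy : r / 4 ≤ dist y z
    · rw [χ.zero_of_le_dist hy, zero_mul, abs_zero]
      exact hε.le
    · rw [not_le, dist_eq_norm] at hy
      rw [abs_mul, abs_of_nonneg χ.nonneg]
      have h1 : |SardL a (y - z)| ≤ ‖SardL a‖ * ‖y - z‖ := (SardL a).le_opNorm _
      have h2 : ‖SardL a‖ * ‖y - z‖ ≤ ‖SardL a‖ * (1 + r) := by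
        gcongr
        linarith
      calc χ y * |SardL a (y - z)| ≤ 1 * (‖SardL a‖ * (1 + r)) := by
            gcongr
            · exact χ.le_one
            · exact h1.trans h2
        _ ≤ ε := by rw [one_mul]; exact hal2
  · intro y
    have h1 : D2 g y = D2 f y - D2 (fun x => χ x * SardL a (x - z)) y :=
      D2_fsub hf (hχ.mul ((SardL a).contDiff.comp (contDiff_id.sub contDiff_const))) y
    rw [h1, nn_sub]
    exact (hC2 a y).trans hal3
  · intro x hx
    have hx1 := ((hmem x).1 hx).1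
    refine ⟨fun v => ?_, SardL a, ?_, SardL a z, ?_⟩
    · rw [hhess x hx1]
      refine (hcont x ?_ v).trans ?_
      · rw [Metric.mem_ball] at hx1
        linarith
      · gcongr
        exact min_le_right _ _
    · have h1 : ‖SardL a‖ * 1 ≤ ‖SardL a‖ * (1 + r) := by
        gcongr
        linarith
      linarith
    · filter_upwards [Metric.isOpen_ball.mem_nhds hx1] with w hw
      have h2 : χ w = 1 := by
        apply χ.one_of_mem_closedBall
        rw [Metric.mem_ball] at hw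
        rw [Metric.mem_closedBall]
        exact hw.le.trans hρ2
      simp only [g]
      rw [h2, map_sub]
      ring

end Pool.Agent.H18.TU
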