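import Pool.Agent.H18.TU.PertE
import Pool.Agent.H47.ST.Win

/-!
# Project TU: small perturbations of a band

A `C^2` function with isolated critical points in a band is perturbed, near its critical points, to
a function with nondegenerate critical points with pairwise different values.
-/

set_option autoImplicit false

namespace Pool.Agent.H18.TU

open Filter Topology QuadraticForm
open Pool.Agent.H47.ST
open Pool.Agent.H47.QG (hess LD)
open Pool.Agent.H10.TU (D2)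

variable {ι : Type*} [Fintype ι] [DecidableEq ι]

/-- numbers making finitely many values different -/
theorem gen_t {E : Type*} (Z : Finset E) (f : E → ℝ) {τ : ℝ} (hτ : 0 < τ) :
    ∃ t : E → ℝ, (∀ z, |t z| ≤ τ) ∧ ∀ z ∈ Z, ∀ z' ∈ Z, f z + t z = f z' + t z' → z = z' := by
  classical
  induction Z using Finset.induction_on with
  | empty =>
    exact ⟨fun _ => 0, fun z => by rw [abs_zero]; exact hτ.le,
      fun z hz => absurd hz (Finset.notMem_empty z)⟩
  | insert b s hb ih =>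
    obtain ⟨t, ht, hinj⟩ := ih
    obtain ⟨c, hc, hc'⟩ := (Set.Ioo_infinite hτ).exists_notMem_finset
      (s.image fun z => f z + t z - f b)
    refine ⟨Function.update t b c, ?_, ?_⟩
    · intro z
      by_cases h : z = b
      · subst h
        rw [Function.update_self, abs_of_pos hc.1]
        exact hc.2.le
      · rw [Function.update_of_ne h]
        exact ht z
    · have hne : ∀ z ∈ s, z ≠ b := fun z hz h => hb (h ▸ hz)
      have hcne : ∀ z ∈ s, f b + c ≠ f z + t z := by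
        intro z hz h
        apply hc'
        rw [Finset.mem_image]
        exact ⟨z, hz, by linarith⟩
      intro z hz z' hz' h
      rcases Finset.mem_insert.1 hz with h1 | h1
      · rcases Finset.mem_insert.1 hz' with h2 | h2
        · rw [h1, h2]
        · rw [h1, Function.update_self, Function.update_of_ne (hne z' h2)] at h
          exact absurd h (hcne z' h2)
      · rcases Finset.mem_insert.1 hz' with h2 | h2
        · rw [h2, Function.update_self, Function.update_of_ne (hne z h1)] at h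
          exact absurd h.symm (hcne z h1)
        · rw [Function.update_of_ne (hne z h1), Function.update_of_ne (hne z' h2)] at h
          exact hinj z h1 z' h2 h

omit [DecidableEq ι] in
/-- the Hessian does not see affine functions -/
theorem hess_affine {f g : (ι → ℝ) → ℝ} (hf : Differentiable ℝ f) {x : ι → ℝ}
    {A : (ι → ℝ) →L[ℝ] ℝ} {t : ℝ} (h : ∀ᶠ y in 𝓝 x, g y = f y - A y + t) :
    hess g x = hess f x := by
  apply Pool.Agent.H47.QG.Sard_hess_sub (L := A)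
  filter_upwards [h.eventually_nhds] with y hy
  have h1 : g =ᶠ[𝓝 y] fun w => f w - A w + t := hy
  rw [h1.fderiv_eq]
  exact (((hf y).hasFDerivAt.sub A.hasFDerivAt).add_const t).fderiv

theorem D2_congr {E : Type*} [NormedAddCommGroup E] [NormedSpace ℝ E] {f g : E → ℝ} {y : E}
    (h : ∀ᶠ x in 𝓝 y, f x = g x) : D2 f y = D2 g y :=
  (Filter.EventuallyEq.fderiv (𝕜 := ℝ) (show f =ᶠ[𝓝 y] g from h)).fderiv_eq

theorem D2_trans {E : Type*} [NormedAddCommGroup E] [NormedSpace ℝ E] (f : E → ℝ) (v y : E) :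
    D2 (fun x => f (x - v)) y = D2 f (y - v) := by
  have h1 : fderiv ℝ (fun x => f (x - v)) = fun x => fderiv ℝ f (x - v) := by
    funext x
    exact fderiv_comp_sub v
  show fderiv ℝ (fderiv ℝ fun x => f (x - v)) y = _
  rw [h1]
  exact fderiv_comp_sub v

omit [DecidableEq ι] in
/-- adding a small constant near an isolated critical point -/
theorem shift_loc (f : (ι → ℝ) → ℝ) (hf : ContDiff ℝ 2 f) (z : ι → ℝ) {r : ℝ} (hr : 0 < r)
    (hz0 : fderiv ℝ f z = 0) (hz : ∀ x ∈ Metric.closedBall z r, fderiv ℝ f x = 0 → x = z)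
    {δ : ℝ} (hδ : 0 < δ) :
    ∀ᶠ τ in 𝓝[>] (0 : ℝ), ∀ t : ℝ, |t| ≤ τ → ∃ k : (ι → ℝ) → ℝ, ContDiff ℝ 2 k ∧
      (∀ y, y ∉ Metric.closedBall z (r / 2) → k y = f y) ∧
      (∀ y ∈ Metric.closedBall z r, fderiv ℝ k y = 0 ↔ y = z) ∧
      (∀ y, |k y - f y| ≤ |t|) ∧ (∀ y, ‖D2 k y - D2 f y‖ ≤ δ) ∧ ∀ᶠ y in 𝓝 z, k y = f y + t := by
  let χ : ContDiffBump z := ⟨r / 4, r / 2, by linarith, by linarith⟩
  have hχ : ContDiff ℝ 2 (χ : (ι → ℝ) → ℝ) := χ.contDiff
  have hχd : Differentiable ℝ (χ : (ι → ℝ) → ℝ) := hχ.differentiable two_ne_zero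
  have hfd : Differentiable ℝ f := hf.differentiable two_ne_zero
  obtain ⟨C, hC⟩ := (isCompact_closedBall z r).exists_bound_of_continuousOn
    (hχ.continuous_fderiv two_ne_zero).continuousOn
  have hC0 : 0 ≤ C := (norm_nonneg _).trans (hC z (Metric.mem_closedBall_self hr.le))
  -- the lower bound on the shell
  obtain ⟨c, hc, hshell⟩ : ∃ c > 0, ∀ y ∈ Metric.closedBall z r, r / 4 ≤ dist y z →
      c ≤ ‖fderiv ℝ f y‖ := by
    let K : Set (ι → ℝ) := {y | y ∈ Metric.closedBall z r ∧ r / 4 ≤ dist y z}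
    have hK : IsCompact K := (isCompact_closedBall z r).inter_right
      (isClosed_le continuous_const (continuous_id.dist continuous_const))
    rcases K.eq_empty_or_nonempty with hE | hE
    · refine ⟨1, one_pos, fun y hy1 hy2 => ?_⟩
      have h1 : y ∈ K := ⟨hy1, hy2⟩
      rw [hE] at h1
      exact absurd h1 (Set.notMem_empty y)
    · obtain ⟨y₀, hy₀, hmin⟩ := hK.exists_isMinOn hE
        ((hf.continuous_fderiv two_ne_zero).norm.continuousOn)
      refine ⟨‖fderiv ℝ f y₀‖, ?_, fun y hy1 hy2 => hmin (a := y) ⟨hy1, hy2⟩⟩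
      rw [gt_iff_lt, norm_pos_iff]
      intro h0
      have h1 := hz y₀ hy₀.1 h0
      have h2 := hy₀.2
      rw [h1, dist_self] at h2
      linarith
  obtain ⟨C', hC'0, hC'⟩ := D2_bdd hχ χ.hasCompactSupport
  have hev : ∀ C c : ℝ, 0 < c → ∀ᶠ τ in 𝓝[>] (0 : ℝ), τ * C < c := by
    intro C c hc
    have h1 : Filter.Tendsto (fun τ : ℝ => τ * C) (𝓝 0) (𝓝 0) := by
      have : Continuous fun τ : ℝ => τ * C := by fun_prop
      simpa using this.tendsto 0
    exact nhdsWithin_le_nhds (h1.eventually (gt_mem_nhds hc))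
  filter_upwards [hev C c hc, hev C' δ hδ] with τ hτ hτ' t ht
  have hder : ∀ y, fderiv ℝ (fun x => f x + t * χ x) y = fderiv ℝ f y + t • fderiv ℝ χ y :=
    fun y => ((hfd y).hasFDerivAt.add ((hχd y).hasFDerivAt.const_mul t)).fderiv
  have hin : ∀ y ∈ Metric.ball z (r / 4), (χ : (ι → ℝ) → ℝ) =ᶠ[𝓝 y] fun _ => (1 : ℝ) := by
    intro y hy
    filter_upwards [Metric.isOpen_ball.mem_nhds hy] with w hw
    exact χ.one_of_mem_closedBall (Metric.ball_subset_closedBall hw)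
  refine ⟨fun y => f y + t * χ y, hf.add (contDiff_const.mul hχ), ?_, ?_, ?_, ?_, ?_⟩
  · intro y hy
    rw [Metric.mem_closedBall, not_le] at hy
    have h1 : χ y = 0 := χ.zero_of_le_dist hy.le
    simp only [h1, mul_zero, add_zero]
  · intro y hy
    rw [hder]
    constructor
    · intro h0
      by_cases hy2 : dist y z < r / 4
      · have h1 := hin y hy2
        rw [h1.fderiv_eq, fderiv_const_apply, smul_zero, add_zero] at h0
        exact hz y hy h0
      · exfalso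
        rw [not_lt] at hy2
        have h1 := hshell y hy hy2
        rw [eq_neg_of_add_eq_zero_left h0, norm_neg, norm_smul, Real.norm_eq_abs] at h1
        have h2 : |t| * ‖fderiv ℝ χ y‖ ≤ τ * C :=
          mul_le_mul ht (hC y hy) (norm_nonneg _) ((abs_nonneg t).trans ht)
        linarith
    · rintro rfl
      rw [(hin y (Metric.mem_ball_self (by linarith))).fderiv_eq, fderiv_const_apply, smul_zero,
        add_zero, hz0]
  · intro y
    show |f y + t * χ y - f y| ≤ |t|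
    rw [add_sub_cancel_left, abs_mul, abs_of_nonneg χ.nonneg]
    exact mul_le_of_le_one_right (abs_nonneg t) χ.le_one
  · intro y
    rw [D2_fadd hf (contDiff_const.mul hχ), nn_add_sub, D2_cmul hχ]
    refine (nn_smul _ _).trans ?_
    exact (mul_le_mul ht (hC' y) (nn_nonneg _) ((abs_nonneg t).trans ht)).trans hτ'.le
  · filter_upwards [hin z (Metric.mem_ball_self (by linarith))] with y hy
    show f y + t * χ y = f y + t
    rw [hy, mul_one]

section band

variable {L : AddSubgroup (ι → ℤ)} {q Q f g : (ι → ℝ) → ℝ} {R a α β : ℝ} {Z : Finset (ι → ℝ)}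

/-- conditions near the representatives hold near the translates -/
theorem in_shift (h : Band L q Q f R a α β Z) {r : ℝ}
    (hin : ∀ z ∈ Z, ∀ y ∈ Metric.closedBall z r, q y < R ∧ -a < Q y ∧ α < f y ∧ f y < β)
    {z : ι → ℝ} (hz : z ∈ Z) {l : ι → ℤ} (hl : l ∈ L) {y : ι → ℝ}
    (hy : y ∈ Metric.closedBall (z + rl l) r) : q y < R ∧ -a < Q y ∧ α < f y ∧ f y < β := by
  have h1 := hin z hz (y - rl l) (Win_sub_mem hy)
  rwa [Win_shift h.dm.qp hl, Win_shift h.dm.Qp hl, Win_shift h.per hl] at h1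

/-- modification of a band near its critical points -/
theorem band_glue (h : Band L q Q f R a α β Z) {r : ℝ} (hr : 0 < r) (hd : Disj L Z r)
    (hin : ∀ z ∈ Z, ∀ y ∈ Metric.closedBall z r, q y < R ∧ -a < Q y ∧ α < f y ∧ f y < β)
    (k : (ι → ℝ) → (ι → ℝ) → ℝ) (X : (ι → ℝ) → Finset (ι → ℝ))
    (hk1 : ∀ z ∈ Z, ContDiff ℝ 2 (k z))
    (hk2 : ∀ z ∈ Z, ∀ y, y ∉ Metric.closedBall z (r / 2) → k z y = f y)
    (hk3 : ∀ z ∈ Z, ∀ y ∈ Metric.closedBall z r, fderiv ℝ (k z) y = 0 ↔ y ∈ X z)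
    (hk4 : ∀ z ∈ Z, ∀ x ∈ X z, x ∈ Metric.ball z (r / 2))
    (hk5 : ∀ z ∈ Z, ∀ y ∈ Metric.closedBall z r, α < k z y ∧ k z y < β) :
    ∃ f' : (ι → ℝ) → ℝ, Band L q Q f' R a α β (Z.biUnion X) ∧
      (∀ y, (∀ z ∈ Z, ∀ l ∈ L, y ∉ Metric.closedBall (z + rl l) (r / 2)) →
        ∀ᶠ x in 𝓝 y, f' x = f x) ∧
      (∀ z ∈ Z, ∀ l ∈ L, ∀ y ∈ Metric.ball (z + rl l) r, f' y = k z (y - rl l)) ∧
      (∀ z ∈ Z, ∀ y ∈ Metric.ball z r, f' y = k z y) ∧
      ∀ δ, 0 ≤ δ → (∀ z ∈ Z, ∀ y, ‖D2 (k z) y - D2 f y‖ ≤ δ) → ∀ y, ‖D2 f' y - D2 f y‖ ≤ δ := by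
  classical
  obtain ⟨f', hf', hp, hfar, hnear⟩ := glue L 2 f h.smooth h.per Z r hr hd k hk1 hk2
  have hnear0 : ∀ z ∈ Z, ∀ y ∈ Metric.ball z r, f' y = k z y := by
    intro z hz y hy
    have := hnear z hz 0 L.zero_mem y (by rwa [Win_rl_zero, add_zero])
    rwa [Win_rl_zero, sub_zero] at this
  have hhalf : ∀ c : ι → ℝ, Metric.closedBall c (r / 2) ⊆ Metric.closedBall c r := fun c =>
    Metric.closedBall_subset_closedBall (by linarith)
  have hbb : ∀ z ∈ Z, ∀ x ∈ X z, x ∈ Metric.ball z r := fun z hz x hx =>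
    Metric.ball_subset_ball (by linarith) (hk4 z hz x hx)
  refine ⟨f', ⟨h.dm, hf', hp, ?_, h.lt, ?_, ?_, ?_⟩, hfar, hnear, hnear0, ?_⟩
  · intro y h1 h2 h3
    have h4 : ∀ z ∈ Z, ∀ l ∈ L, y ∉ Metric.closedBall (z + rl l) (r / 2) := by
      intro z hz l hl hy
      obtain ⟨e1, e2, -, -⟩ := in_shift h hin hz hl (hhalf _ hy)
      rcases h3 with h3 | h3 <;> linarith
    have h5 : f' =ᶠ[𝓝 y] f := hfar y h4
    rw [h5.fderiv_eq]
    exact h.bd y h1 h2 h3
  · intro x hx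
    obtain ⟨z, hz, hxz⟩ := Finset.mem_biUnion.1 hx
    have hb := hbb z hz x hxz
    have hcb := Metric.ball_subset_closedBall hb
    obtain ⟨e1, e2, -, -⟩ := hin z hz x hcb
    obtain ⟨e3, e4⟩ := hk5 z hz x hcb
    have h1 : f' =ᶠ[𝓝 x] k z := by
      filter_upwards [Metric.isOpen_ball.mem_nhds hb] with w hw
      exact hnear0 z hz w hw
    refine ⟨?_, e1, e2, ?_, ?_⟩
    · rw [h1.fderiv_eq]
      exact (hk3 z hz x hcb).2 hxz
    · rwa [hnear0 z hz x hb]
    · rwa [hnear0 z hz x hb]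
  · intro x hx x' hx' l hl he
    obtain ⟨z, hz, hxz⟩ := Finset.mem_biUnion.1 hx
    obtain ⟨z', hz', hxz'⟩ := Finset.mem_biUnion.1 hx'
    have h1 : x' ∈ Metric.closedBall (z + rl l) r := by
      have := Metric.ball_subset_closedBall (hbb z hz x hxz)
      rw [Metric.mem_closedBall] at this ⊢
      rw [he, dist_add_right]
      exact this
    obtain ⟨-, h3⟩ := hd z hz z' hz' l hl x' h1 (Metric.ball_subset_closedBall (hbb z' hz' x' hxz'))
    rw [he, h3, Win_rl_zero, add_zero]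
  · intro y h1 h2 h3 h4 h5
    by_cases hy : ∃ z ∈ Z, ∃ l ∈ L, y ∈ Metric.closedBall (z + rl l) (r / 2)
    · obtain ⟨z, hz, l, hl, hy⟩ := hy
      have hyb : y ∈ Metric.ball (z + rl l) r := Metric.closedBall_subset_ball (by linarith) hy
      have h6 : f' =ᶠ[𝓝 y] fun x => k z (x - rl l) := by
        filter_upwards [Metric.isOpen_ball.mem_nhds hyb] with x hx
        exact hnear z hz l hl x hx
      have h7 : fderiv ℝ (k z) (y - rl l) = 0 := by
        rw [← fderiv_comp_sub, ← h6.fderiv_eq, h5]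
      have h8 := (hk3 z hz (y - rl l) (hhalf _ (Win_sub_mem hy))).1 h7
      exact ⟨y - rl l, Finset.mem_biUnion.2 ⟨z, hz, h8⟩, l, hl, by rw [sub_add_cancel]⟩
    · exfalso
      push Not at hy
      have h6 : f' =ᶠ[𝓝 y] f := hfar y hy
      rw [h6.fderiv_eq] at h5
      rw [h6.self_of_nhds] at h3 h4
      obtain ⟨z, hz, l, hl, hyl⟩ := h.crit y h1 h2 h3 h4 h5
      exact hy z hz l hl (by rw [hyl]; exact Metric.mem_closedBall_self (half_pos hr).le)
  · intro δ hδ hk y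
    by_cases hy : ∃ z ∈ Z, ∃ l ∈ L, y ∈ Metric.closedBall (z + rl l) (r / 2)
    · obtain ⟨z, hz, l, hl, hy⟩ := hy
      have hyb : y ∈ Metric.ball (z + rl l) r := Metric.closedBall_subset_ball (by linarith) hy
      have h6 : ∀ᶠ x in 𝓝 y, f' x = k z (x - rl l) := by
        filter_upwards [Metric.isOpen_ball.mem_nhds hyb] with x hx
        exact hnear z hz l hl x hx
      have h7 : ∀ᶠ x in 𝓝 y, f x = f (x - rl l) :=
        Eventually.of_forall fun x => (Win_shift h.per hl x).symm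
      rw [D2_congr h6, D2_congr h7, D2_trans, D2_trans]
      exact hk z hz _
    · push Not at hy
      rw [D2_congr (hfar y hy), nn_self]
      exact hδ

omit [DecidableEq ι] in
/-- margins -/
theorem margin {f : (ι → ℝ) → ℝ} (hf : Continuous f) {z : ι → ℝ} {r α β : ℝ} (hr : 0 ≤ r)
    (h : ∀ y ∈ Metric.closedBall z r, α < f y ∧ f y < β) :
    ∀ᶠ η in 𝓝[>] (0 : ℝ), ∀ y ∈ Metric.closedBall z r, α + η < f y ∧ f y + η < β := by
  have hne : (Metric.closedBall z r).Nonempty := ⟨z, Metric.mem_closedBall_self hr⟩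
  obtain ⟨y1, hy1, hm1⟩ := (isCompact_closedBall z r).exists_isMinOn hne hf.continuousOn
  obtain ⟨y2, hy2, hm2⟩ := (isCompact_closedBall z r).exists_isMaxOn hne hf.continuousOn
  have e1 : 0 < f y1 - α := sub_pos.2 (h y1 hy1).1
  have e2 : 0 < β - f y2 := sub_pos.2 (h y2 hy2).2
  refine nhdsWithin_le_nhds ?_
  filter_upwards [gt_mem_nhds e1, gt_mem_nhds e2] with η h1 h2 y hy
  have h3 : f y1 ≤ f y := hm1 hy
  have h4 : f y ≤ f y2 := hm2 hy
  constructor <;> linarith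

omit [Fintype ι] [DecidableEq ι] in
theorem Disj.mono' [Fintype ι] {r r' : ℝ} (hd : Disj L Z r) (h : r' ≤ r) : Disj L Z r' :=
  fun z hz z' hz' l hl y hy hy' => hd z hz z' hz' l hl y
    (Metric.closedBall_subset_closedBall h hy) (Metric.closedBall_subset_closedBall h hy')

/-- small radii -/
theorem rad_small (h : Band L q Q f R a α β Z) {ε : ℝ} (hε : 0 < ε) :
    ∃ r, 0 < r ∧ r ≤ ε ∧ Disj L Z r ∧ ∀ z ∈ Z, ∀ y ∈ Metric.closedBall z r,
      q y < R ∧ -a < Q y ∧ α < f y ∧ f y < β := by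
  obtain ⟨r, hr, hd, hin⟩ := Win_rad h
  exact ⟨min r ε, lt_min hr hε, min_le_right _ _, Disj.mono' hd (min_le_left _ _),
    fun z hz y hy => hin z hz y (Metric.closedBall_subset_closedBall (min_le_left _ _) hy)⟩

/-- separation of the critical values in a band -/
theorem sep_band (h : Band L q Q f R a α β Z) {ε : ℝ} (hε : 0 < ε) :
    ∃ (r : ℝ) (f' : (ι → ℝ) → ℝ), 0 < r ∧ r ≤ ε ∧ Band L q Q f' R a α β Z ∧
      (∀ z ∈ Z, ∀ z' ∈ Z, f' z = f' z' → z = z') ∧ (∀ y, |f' y - f y| ≤ ε) ∧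
      (∀ y, ‖D2 f' y - D2 f y‖ ≤ ε) ∧
      (∀ y, (∀ z ∈ Z, ∀ l ∈ L, y ∉ Metric.closedBall (z + rl l) (r / 2)) →
        ∀ᶠ x in 𝓝 y, f' x = f x) ∧
      ∀ z ∈ Z, ∃ t : ℝ, ∀ᶠ y in 𝓝 z, f' y = f y + t := by
  classical
  obtain ⟨r, hr, hrε, hd, hin⟩ := rad_small h hε
  have e1 : ∀ᶠ τ in 𝓝[>] (0 : ℝ), ∀ z ∈ Z, ∀ t : ℝ, |t| ≤ τ → ∃ k : (ι → ℝ) → ℝ,
      ContDiff ℝ 2 k ∧ (∀ y, y ∉ Metric.closedBall z (r / 2) → k y = f y) ∧
      (∀ y ∈ Metric.closedBall z r, fderiv ℝ k y = 0 ↔ y = z) ∧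
      (∀ y, |k y - f y| ≤ |t|) ∧ (∀ y, ‖D2 k y - D2 f y‖ ≤ ε) ∧
      ∀ᶠ y in 𝓝 z, k y = f y + t := by
    rw [Filter.eventually_all_finset]
    exact fun z hz => shift_loc f h.smooth z hr (h.mem z hz).1 (Win_unique h hr hd hin z hz) hε
  have e2 : ∀ᶠ τ in 𝓝[>] (0 : ℝ), ∀ z ∈ Z, ∀ y ∈ Metric.closedBall z r,
      α + τ < f y ∧ f y + τ < β := by
    rw [Filter.eventually_all_finset]
    exact fun z hz => margin h.smooth.continuous hr.le fun y hy =>
      ⟨(hin z hz y hy).2.2.1, (hin z hz y hy).2.2.2⟩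
  have e3 : ∀ᶠ τ in 𝓝[>] (0 : ℝ), τ < ε := nhdsWithin_le_nhds (gt_mem_nhds hε)
  obtain ⟨τ, ⟨⟨e1, e2⟩, e3⟩, e4⟩ := (((e1.and e2).and e3).and self_mem_nhdsWithin).exists
  have hτ : 0 < τ := e4
  obtain ⟨t, ht, hinj⟩ := gen_t Z f hτ
  have hk : ∀ z ∈ Z, ∃ k : (ι → ℝ) → ℝ,
      ContDiff ℝ 2 k ∧ (∀ y, y ∉ Metric.closedBall z (r / 2) → k y = f y) ∧
      (∀ y ∈ Metric.closedBall z r, fderiv ℝ k y = 0 ↔ y = z) ∧
      (∀ y, |k y - f y| ≤ |t z|) ∧ (∀ y, ‖D2 k y - D2 f y‖ ≤ ε) ∧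
      ∀ᶠ y in 𝓝 z, k y = f y + t z :=
    fun z hz => e1 z hz (t z) (ht z)
  choose! k hk1 hk2 hk3 hk4 hk6 hk5 using hk
  obtain ⟨f', hB, hfar, hnear, hnear0, hD2⟩ := band_glue h hr hd hin k (fun z => {z}) hk1 hk2
    (fun z hz y hy => by rw [Finset.mem_singleton]; exact hk3 z hz y hy)
    (fun z hz x hx => by
      rw [Finset.mem_singleton.1 hx]
      exact Metric.mem_ball_self (half_pos hr))
    (fun z hz y hy => by
      obtain ⟨h1, h2⟩ := e2 z hz y hy
      have h3 := abs_le.1 ((hk4 z hz y).trans (ht z))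
      constructor <;> linarith [h3.1, h3.2])
  have hbi : (Z.biUnion fun z => ({z} : Finset (ι → ℝ))) = Z := by
    ext z
    simp
  rw [hbi] at hB
  have hval : ∀ z ∈ Z, f' z = f z + t z := by
    intro z hz
    rw [hnear0 z hz z (Metric.mem_ball_self hr)]
    exact (hk5 z hz).self_of_nhds
  refine ⟨r, f', hr, hrε, hB, ?_, ?_, hD2 ε hε.le hk6, hfar, ?_⟩
  · intro z hz z' hz' he
    rw [hval z hz, hval z' hz'] at he
    exact hinj z hz z' hz' he
  · intro y
    by_cases hy : ∃ z ∈ Z, ∃ l ∈ L, y ∈ Metric.closedBall (z + rl l) (r / 2)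
    · obtain ⟨z, hz, l, hl, hy⟩ := hy
      rw [hnear z hz l hl y (Metric.closedBall_subset_ball (by linarith) hy),
        ← Win_shift h.per hl y]
      exact (hk4 z hz _).trans ((ht z).trans e3.le)
    · push Not at hy
      rw [(hfar y hy).self_of_nhds, sub_self, abs_zero]
      exact hε.le
  · intro z hz
    refine ⟨t z, ?_⟩
    filter_upwards [hk5 z hz, Metric.isOpen_ball.mem_nhds (Metric.mem_ball_self hr)] with y h1 h2
    rw [hnear0 z hz y h2, h1]

/-- The data of a small perturbation `f'` of `g` in a band. -/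
structure SD (L : AddSubgroup (ι → ℤ)) (q Q g : (ι → ℝ) → ℝ) (R a α β : ℝ)
    (Z : Finset (ι → ℝ)) (ε r : ℝ) (f' : (ι → ℝ) → ℝ) (X : Finset (ι → ℝ)) : Prop where
  rpos : 0 < r
  rle : r ≤ ε
  disj : Disj L Z r
  band : Band L q Q f' R a α β X
  inj : ∀ x ∈ X, ∀ x' ∈ X, f' x = f' x' → x = x'
  near : ∀ y, |f' y - g y| ≤ ε
  d2 : ∀ y, ‖D2 f' y - D2 g y‖ ≤ ε
  out : ∀ y, (∀ z ∈ Z, ∀ l ∈ L, y ∉ Metric.closedBall (z + rl l) r) → ∀ᶠ x in 𝓝 y, f' x = g x
  ins : ∀ z ∈ Z, ∀ l ∈ L, ∀ y ∈ Metric.closedBall (z + rl l) r,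
    q y < R ∧ -a < Q y ∧ α < g y ∧ g y < β ∧ α < f' y ∧ f' y < β
  lv : ∀ c, (c ≤ α ∨ β ≤ c) → ∀ m, Lv q Q f' R a c m = Lv q Q g R a c m
  nd : ∀ x ∈ X, sigNeg (hess f' x) + sigPos (hess f' x) = Fintype.card ι
  src : ∀ x ∈ X, ∃ z ∈ Z, x ∈ Metric.ball z (r / 2) ∧
    sigNeg (hess g z) ≤ sigNeg (hess f' x) ∧
    sigNeg (hess f' x) + sigPos (hess g z) ≤ Fintype.card ι ∧
    ∀ v, |hess f' x v - hess g z v| ≤ ε * ‖v‖ ^ 2
  fib : ∀ z ∈ Z, ∀ y ∈ Metric.closedBall z r, fderiv ℝ f' y = 0 ↔ y ∈ X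
  loc : ∀ x ∈ X, ∃ A : (ι → ℝ) →L[ℝ] ℝ, ‖A‖ ≤ ε ∧ ∃ t : ℝ, ∀ᶠ y in 𝓝 x, f' y = g y - A y + t

/-- **Small perturbations.** -/
theorem sda (h : Band L q Q g R a α β Z) {ε : ℝ} (hε : 0 < ε) :
    ∃ (r : ℝ) (f' : (ι → ℝ) → ℝ) (X : Finset (ι → ℝ)), SD L q Q g R a α β Z ε r f' X := by
  classical
  obtain ⟨r, hr, hrε, hd, hin⟩ := rad_small h hε
  -- the margin
  have e2 : ∀ᶠ η in 𝓝[>] (0 : ℝ), ∀ z ∈ Z, ∀ y ∈ Metric.closedBall z r,
      α + η < g y ∧ g y + η < β := by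
    rw [Filter.eventually_all_finset]
    exact fun z hz => margin h.smooth.continuous hr.le fun y hy =>
      ⟨(hin z hz y hy).2.2.1, (hin z hz y hy).2.2.2⟩
  have e3 : ∀ᶠ η in 𝓝[>] (0 : ℝ), η < ε := nhdsWithin_le_nhds (gt_mem_nhds hε)
  obtain ⟨η, ⟨e2, e3⟩, e4⟩ := ((e2.and e3).and self_mem_nhdsWithin).exists
  have hη : 0 < η := e4
  -- the local perturbations
  have hex : ∀ z ∈ Z, ∃ (k : (ι → ℝ) → ℝ) (X : Finset (ι → ℝ)), LD g z r k X ∧
      (∀ y, |k y - g y| ≤ η / 2) ∧ (∀ y, ‖D2 k y - D2 g y‖ ≤ η / 2) ∧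
      ∀ x ∈ X, (∀ v, |hess k x v - hess g z v| ≤ η / 2 * ‖v‖ ^ 2) ∧
        ∃ A : (ι → ℝ) →L[ℝ] ℝ, ‖A‖ ≤ η / 2 ∧ ∃ t : ℝ, ∀ᶠ y in 𝓝 x, k y = g y - A y + t :=
    fun z hz => perturbE g h.smooth z r hr (η / 2) (half_pos hη) (Win_unique h hr hd hin z hz)
  choose! k X hk1 hk2 hk4 hk3 using hex
  obtain ⟨f1, hB1, hfar1, hnear1, hnear10, hD1⟩ := band_glue h hr hd hin k X
    (fun z hz => (hk1 z hz).smooth) (fun z hz => (hk1 z hz).eq) (fun z hz => (hk1 z hz).crit)
    (fun z hz => (hk1 z hz).mem)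
    (fun z hz y hy => by
      obtain ⟨h1, h2⟩ := e2 z hz y hy
      have h3 := abs_le.1 (hk2 z hz y)
      constructor <;> linarith [h3.1, h3.2])
  -- separation of the values
  obtain ⟨r2, f2, hr2, hr2', hB2, hinj2, hclose2, hD2, hfar2, hloc2⟩ := sep_band hB1
    (lt_min (half_pos hη) hr)
  have hclose1 : ∀ y, |f1 y - g y| ≤ η / 2 := by
    intro y
    by_cases hy : ∃ z ∈ Z, ∃ l ∈ L, y ∈ Metric.closedBall (z + rl l) (r / 2)
    · obtain ⟨z, hz, l, hl, hy⟩ := hy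
      rw [hnear1 z hz l hl y (Metric.closedBall_subset_ball (by linarith) hy),
        ← Win_shift h.per hl y]
      exact hk2 z hz _
    · push Not at hy
      rw [(hfar1 y hy).self_of_nhds, sub_self, abs_zero]
      exact (half_pos hη).le
  have hclose : ∀ y, |f2 y - g y| ≤ η := by
    intro y
    have h1 := (hclose2 y).trans (min_le_left _ _)
    have h2 := hclose1 y
    calc |f2 y - g y| = |(f2 y - f1 y) + (f1 y - g y)| := by rw [sub_add_sub_cancel]
      _ ≤ |f2 y - f1 y| + |f1 y - g y| := abs_add_le _ _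
      _ ≤ η := by linarith
  have hins : ∀ z ∈ Z, ∀ l ∈ L, ∀ y ∈ Metric.closedBall (z + rl l) r,
      q y < R ∧ -a < Q y ∧ α < g y ∧ g y < β ∧ α < f2 y ∧ f2 y < β := by
    intro z hz l hl y hy
    obtain ⟨h1, h2, h3, h4⟩ := in_shift h hin hz hl hy
    have h5 := e2 z hz (y - rl l) (Win_sub_mem hy)
    rw [Win_shift h.per hl] at h5
    have h6 := abs_le.1 (hclose y)
    exact ⟨h1, h2, h3, h4, by linarith [h6.1, h5.1], by linarith [h6.2, h5.2]⟩
  have hout : ∀ y, (∀ z ∈ Z, ∀ l ∈ L, y ∉ Metric.closedBall (z + rl l) r) →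
      ∀ᶠ x in 𝓝 y, f2 x = g x := by
    intro y hy
    have h1 : ∀ z ∈ Z, ∀ l ∈ L, y ∉ Metric.closedBall (z + rl l) (r / 2) :=
      fun z hz l hl hy' => hy z hz l hl (Metric.closedBall_subset_closedBall (by linarith) hy')
    have h2 : ∀ x ∈ Z.biUnion X, ∀ l ∈ L, y ∉ Metric.closedBall (x + rl l) (r2 / 2) := by
      intro x hx l hl hy'
      obtain ⟨z, hz, hxz⟩ := Finset.mem_biUnion.1 hx
      apply hy z hz l hl
      have h3 := (hk1 z hz).mem x hxz
      rw [Metric.mem_ball] at h3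
      rw [Metric.mem_closedBall] at hy' ⊢
      have h4 : r2 ≤ r := hr2'.trans (min_le_right _ _)
      have h5 : dist (x + rl l) (z + rl l) < r / 2 := by rwa [dist_add_right]
      have h6 := dist_triangle y (x + rl l) (z + rl l)
      linarith
    filter_upwards [hfar1 y h1, hfar2 y h2] with x hx1 hx2
    rw [hx2, hx1]
  have hnd : ∀ z ∈ Z, ∀ x ∈ X z, hess f2 x = hess (k z) x ∧ ∃ t : ℝ, ∀ᶠ y in 𝓝 x,
      f2 y = k z y + t := by
    intro z hz x hx
    obtain ⟨t, ht⟩ := hloc2 x (Finset.mem_biUnion.2 ⟨z, hz, hx⟩)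
    have hxb : x ∈ Metric.ball z r := Metric.ball_subset_ball (by linarith) ((hk1 z hz).mem x hx)
    have h1 : ∀ᶠ y in 𝓝 x, f2 y = k z y + t := by
      filter_upwards [ht, Metric.isOpen_ball.mem_nhds hxb] with y h1 h2
      rw [h1, hnear10 z hz y h2]
    refine ⟨?_, t, h1⟩
    apply hess_affine ((hk1 z hz).smooth.differentiable two_ne_zero) (A := 0) (t := t)
    filter_upwards [h1] with y hy
    rw [hy]
    simp
  have hηε : η / 2 ≤ ε := by linarith
  refine ⟨r, f2, Z.biUnion X, hr, hrε, hd, hB2, hinj2, fun y => (hclose y).trans e3.le, ?_, hout,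
    hins, ?_, ?_, ?_, ?_, ?_⟩
  · intro y
    have h1 := (hD2 y).trans (min_le_left _ _)
    have h2 := hD1 (η / 2) (half_pos hη).le hk4 y
    have h3 := nn_tri (D2 f2 y) (D2 f1 y) (D2 g y)
    linarith
  · intro c hc m
    ext v
    simp only [Lv, Set.mem_ofPred_eq]
    refine and_congr_right fun _ => or_congr_right ?_
    by_cases hy : ∃ z ∈ Z, ∃ l ∈ L, ps m v ∈ Metric.closedBall (z + rl l) r
    · obtain ⟨z, hz, l, hl, hy⟩ := hy
      obtain ⟨-, -, h3, h4, h5, h6⟩ := hins z hz l hl _ hy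
      rcases hc with hc | hc
      · exact ⟨fun h7 => absurd (h7.trans hc) (not_le.2 h5),
          fun h7 => absurd (h7.trans hc) (not_le.2 h3)⟩
      · exact ⟨fun _ => h4.le.trans hc, fun _ => h6.le.trans hc⟩
    · push Not at hy
      rw [(hout _ hy).self_of_nhds]
  · intro x hx
    obtain ⟨z, hz, hxz⟩ := Finset.mem_biUnion.1 hx
    rw [(hnd z hz x hxz).1]
    exact (hk1 z hz).nd x hxz
  · intro x hx
    obtain ⟨z, hz, hxz⟩ := Finset.mem_biUnion.1 hx
    refine ⟨z, hz, (hk1 z hz).mem x hxz, ?_, ?_, ?_⟩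
    · rw [(hnd z hz x hxz).1]
      exact (hk1 z hz).lo x hxz
    · rw [(hnd z hz x hxz).1]
      exact (hk1 z hz).hi x hxz
    · intro v
      rw [(hnd z hz x hxz).1]
      refine ((hk3 z hz x hxz).1 v).trans ?_
      gcongr
  · intro z hz y hy
    constructor
    · intro h0
      obtain ⟨h1, h2, -, -, h5, h6⟩ := hins z hz 0 L.zero_mem y (by rwa [Win_rl_zero, add_zero])
      obtain ⟨x, hx, l, hl, hxl⟩ := hB2.crit y h1.le h2.le h5.le h6.le h0
      obtain ⟨z', hz', hxz⟩ := Finset.mem_biUnion.1 hx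
      have h7 := (hk1 z' hz').mem x hxz
      have h8 : y ∈ Metric.closedBall (z' + rl l) r := by
        rw [Metric.mem_ball] at h7
        rw [Metric.mem_closedBall, hxl, dist_add_right]
        linarith
      obtain ⟨-, h9⟩ := hd z' hz' z hz l hl y h8 hy
      rw [hxl, h9, Win_rl_zero, add_zero]
      exact hx
    · intro hyX
      exact (hB2.mem y hyX).1
  · intro x hx
    obtain ⟨z, hz, hxz⟩ := Finset.mem_biUnion.1 hx
    obtain ⟨A, hA, t, ht⟩ := (hk3 z hz x hxz).2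
    obtain ⟨-, t', ht'⟩ := hnd z hz x hxz
    refine ⟨A, hA.trans hηε, t + t', ?_⟩
    filter_upwards [ht, ht'] with y h1 h2
    rw [h2, h1]
    ring

/-- **Fine levels** separating different critical values. -/
theorem fine_levels (h : Band L q Q f R a α β Z)
    (hinj : ∀ z ∈ Z, ∀ z' ∈ Z, f z = f z' → z = z') {δ : ℝ} (hδ : 0 < δ) :
    ∃ s > 0, ∃ c : ℕ → ℝ, c 0 = α ∧ c s = β ∧ ∀ i < s, c i < c (i + 1) ∧ c (i + 1) ≤ c i + δ ∧
      Band L q Q f R a (c i) (c (i + 1)) (Z.filter fun x => c i < f x ∧ f x < c (i + 1)) ∧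
      (Z.filter fun x => c i < f x ∧ f x < c (i + 1)).card ≤ 1 := by
  classical
  -- a bound below the distances of the values
  have hev : ∀ᶠ η in 𝓝[>] (0 : ℝ), ∀ z ∈ Z, ∀ z' ∈ Z, z ≠ z' → η < |f z - f z'| := by
    rw [Filter.eventually_all_finset]
    intro z hz
    rw [Filter.eventually_all_finset]
    intro z' hz'
    by_cases h1 : z = z'
    · exact Filter.Eventually.of_forall fun η hne => absurd h1 hne
    · have : 0 < |f z - f z'| := abs_pos.mpr (sub_ne_zero.mpr fun h2 => h1 (hinj z hz z' hz' h2))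
      refine nhdsWithin_le_nhds ?_
      filter_upwards [gt_mem_nhds this] with η hη _
      exact hη
  obtain ⟨η, ⟨hη1, hη2⟩, hη0⟩ := ((hev.and (nhdsWithin_le_nhds (gt_mem_nhds hδ))).and
    self_mem_nhdsWithin).exists
  have hη0 : 0 < η := hη0
  have hη2 : η < δ := hη2
  have hab : 0 < β - α := sub_pos.2 h.lt
  obtain ⟨s, hs⟩ := exists_nat_gt (2 * (β - α) / η)
  have hs0 : 0 < s := by
    rw [Nat.pos_iff_ne_zero]
    rintro rfl
    rw [Nat.cast_zero] at hs
    have : 0 < 2 * (β - α) / η := by positivity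
    linarith
  have hsR : (0 : ℝ) < s := by exact_mod_cast hs0
  set w : ℝ := (β - α) / s with hw
  have hw0 : 0 < w := div_pos hab hsR
  have hw1 : 2 * w < η := by
    rw [div_lt_iff₀ hη0] at hs
    have : 2 * w = 2 * (β - α) / s := by rw [hw]; ring
    rw [this, div_lt_iff₀ hsR]
    linarith
  have hsw : α + s * w = β := by
    rw [hw]
    field_simp
    ring
  have hch : ∀ i : ℕ, ∃ c, α + (i - 1 / 2) * w < c ∧ c < α + i * w ∧ c ∉ Z.image f := by
    intro i
    have h1 : α + (i - 1 / 2) * w < α + i * w := by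
      have : ((i : ℝ) - 1 / 2) * w = i * w - w / 2 := by ring
      rw [this]
      linarith
    obtain ⟨c, hc, hc'⟩ := (Set.Ioo_infinite h1).exists_notMem_finset (Z.image f)
    exact ⟨c, hc.1, hc.2, hc'⟩
  choose d hd1 hd2 hd3 using hch
  let c : ℕ → ℝ := fun i => if i = 0 then α else if i = s then β else d i
  have hc0 : c 0 = α := if_pos rfl
  have hcs : c s = β := by
    simp [c, hs0.ne']
  -- bounds of the levels
  have hlo : ∀ i ≤ s, α + (i - 1 / 2) * w < c i := by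
    intro i hi
    simp only [c]
    split_ifs with h1 h2
    · subst h1
      have : ((0 : ℕ) - 1 / 2 : ℝ) * w = -(w / 2) := by push_cast; ring
      rw [this]
      linarith
    · subst h2
      have : ((i : ℝ) - 1 / 2) * w = i * w - w / 2 := by ring
      rw [this]
      linarith
    · exact hd1 i
  have hhi : ∀ i ≤ s, c i ≤ α + i * w := by
    intro i hi
    simp only [c]
    split_ifs with h1 h2
    · subst h1
      simp
    · subst h2
      exact hsw.ge
    · exact (hd2 i).le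
  have hαZ : α ∉ Z.image f := by
    intro hm
    obtain ⟨z, hz, he⟩ := Finset.mem_image.1 hm
    have := (h.mem z hz).2.2.2.1
    linarith
  have hβZ : β ∉ Z.image f := by
    intro hm
    obtain ⟨z, hz, he⟩ := Finset.mem_image.1 hm
    have := (h.mem z hz).2.2.2.2
    linarith
  have hcZ : ∀ i, c i ∉ Z.image f := by
    intro i
    simp only [c]
    split_ifs with h1 h2
    · exact hαZ
    · exact hβZ
    · exact hd3 i
  have hαc : ∀ i ≤ s, α ≤ c i := by
    intro i hi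
    rcases Nat.eq_zero_or_pos i with h0 | h0
    · rw [h0, hc0]
    · have h1 : (1 : ℝ) ≤ i := by exact_mod_cast h0
      have h2 := hlo i hi
      have h3 : 0 ≤ ((i : ℝ) - 1 / 2) * w := by
        apply mul_nonneg _ hw0.le
        linarith
      linarith
  have hcβ : ∀ i ≤ s, c i ≤ β := by
    intro i hi
    have h1 := hhi i hi
    have h2 : (i : ℝ) * w ≤ s * w := by
      have : (i : ℝ) ≤ s := by exact_mod_cast hi
      gcongr
    linarith
  refine ⟨s, hs0, c, hc0, hcs, fun i hi => ?_⟩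
  have h1 : c i < c (i + 1) := by
    have h2 := hhi i hi.le
    have h3 := hlo (i + 1) hi
    have h4 : (((i + 1 : ℕ) : ℝ) - 1 / 2) * w = i * w + w / 2 := by push_cast; ring
    rw [h4] at h3
    linarith
  have h2 : c (i + 1) < c i + η := by
    have h2 := hlo i hi.le
    have h3 := hhi (i + 1) hi
    have h4 : ((i : ℝ) - 1 / 2) * w = i * w - w / 2 := by ring
    have h5 : (((i + 1 : ℕ) : ℝ)) * w = i * w + w := by push_cast; ring
    rw [h4] at h2
    rw [h5] at h3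
    linarith
  refine ⟨h1, by linarith, ⟨h.dm, h.smooth, h.per, h.bd, h1, ?_, ?_, ?_⟩, ?_⟩
  · intro z hz
    rw [Finset.mem_filter] at hz
    obtain ⟨g1, g2, g3, -, -⟩ := h.mem z hz.1
    exact ⟨g1, g2, g3, hz.2.1, hz.2.2⟩
  · intro z hz z' hz' l hl he
    exact h.inj z (Finset.mem_filter.1 hz).1 z' (Finset.mem_filter.1 hz').1 l hl he
  · intro y g1 g2 g3 g4 g5
    obtain ⟨z, hz, l, hl, hzl⟩ := h.crit y g1 g2 ((hαc i hi.le).trans g3)
      (g4.trans (hcβ (i + 1) hi)) g5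
    have hfz : f y = f z := by rw [hzl, h.per l hl]
    refine ⟨z, Finset.mem_filter.2 ⟨hz, ?_, ?_⟩, l, hl, hzl⟩
    · rw [← hfz]
      refine lt_of_le_of_ne g3 fun he => hcZ i ?_
      rw [he, hfz]
      exact Finset.mem_image_of_mem f hz
    · rw [← hfz]
      refine lt_of_le_of_ne g4 fun he => hcZ (i + 1) ?_
      rw [← he, hfz]
      exact Finset.mem_image_of_mem f hz
  · rw [Finset.card_le_one]
    intro z hz z' hz'
    rw [Finset.mem_filter] at hz hz'
    by_contra hne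
    have h3 := hη1 z hz.1 z' hz'.1 hne
    have h4 : |f z - f z'| < η := by
      rw [abs_lt]
      constructor <;> linarith [hz.2.1, hz.2.2, hz'.2.1, hz'.2.2]
    linarith

end band

end Pool.Agent.H18.TU
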