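import Pool.Agent.H18.TU.SDA
import Pool.Agent.H93.TU.LastV

/-!
# Project TU: small perturbations of a function on the domain
-/

set_option autoImplicit false

namespace Pool.Agent.H18.TU

open Filter Topology QuadraticForm
open Pool.Agent.H47.ST
open Pool.Agent.H93.TU (Tot)
open Pool.Agent.H47.QG (hess)

variable {ι : Type*} [Fintype ι] [DecidableEq ι]
variable {L : AddSubgroup (ι → ℤ)} {q Q g f' : (ι → ℝ) → ℝ} {R a α β ε r : ℝ}
  {Z X : Finset (ι → ℝ)}

open Classical in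
/-- The perturbed function on the whole domain: outside the band nothing changes. -/
theorem SD.tot (h : Tot L q Q g R a Z)
    (hS : SD L q Q g R a α β (Z.filter fun z => α < g z ∧ g z < β) ε r f' X) :
    Tot L q Q f' R a ((Z.filter fun z => ¬ (α < g z ∧ g z < β)) ∪ X) ∧
      (∀ z ∈ Z, ¬ (α < g z ∧ g z < β) → ∀ᶠ y in 𝓝 z, f' y = g y) ∧
      ∀ x ∈ (Z.filter fun z => ¬ (α < g z ∧ g z < β)) ∪ X, α < f' x → f' x < β → x ∈ X := by
  have hold : ∀ z ∈ Z, ¬ (α < g z ∧ g z < β) → ∀ᶠ y in 𝓝 z, f' y = g y := by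
    intro z _ hz2
    apply hS.out z
    intro w hw l hl hy
    have h1 := hS.ins w hw l hl z hy
    exact hz2 ⟨h1.2.2.1, h1.2.2.2.1⟩
  refine ⟨⟨hS.band.dm, hS.band.smooth, hS.band.per, hS.band.bd, ?_, ?_, ?_⟩, hold, ?_⟩
  · intro z hz
    rcases Finset.mem_union.1 hz with hz | hz
    · rw [Finset.mem_filter] at hz
      have h1 : f' =ᶠ[𝓝 z] g := hold z hz.1 hz.2
      rw [h1.fderiv_eq]
      exact h.mem z hz.1
    · obtain ⟨h1, h2, h3, -, -⟩ := hS.band.mem z hz
      exact ⟨h1, h2, h3⟩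
  · intro z hz z' hz' l hl he
    rcases Finset.mem_union.1 hz with hz | hz
    · rw [Finset.mem_filter] at hz
      rcases Finset.mem_union.1 hz' with hz' | hz'
      · exact h.inj z hz.1 z' (Finset.mem_filter.1 hz').1 l hl he
      · exfalso
        obtain ⟨-, -, -, h4, h5⟩ := hS.band.mem z' hz'
        rw [he, hS.band.per l hl, (hold z hz.1 hz.2).self_of_nhds] at h4 h5
        exact hz.2 ⟨h4, h5⟩
    · rcases Finset.mem_union.1 hz' with hz' | hz'
      · exfalso
        rw [Finset.mem_filter] at hz'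
        obtain ⟨-, -, -, h4, h5⟩ := hS.band.mem z hz
        have h6 : f' z = f' z' := by rw [he, hS.band.per l hl]
        rw [h6, (hold z' hz'.1 hz'.2).self_of_nhds] at h4 h5
        exact hz'.2 ⟨h4, h5⟩
      · exact hS.band.inj z hz z' hz' l hl he
  · intro y h1 h2 h3
    by_cases hy : α ≤ f' y ∧ f' y ≤ β
    · obtain ⟨x, hx, l, hl, hxl⟩ := hS.band.crit y h1 h2 hy.1 hy.2 h3
      exact ⟨x, Finset.mem_union_right _ hx, l, hl, hxl⟩
    · have h4 : f' =ᶠ[𝓝 y] g := by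
        apply hS.out y
        intro w hw l hl hy'
        have h5 := hS.ins w hw l hl y hy'
        exact hy ⟨h5.2.2.2.2.1.le, h5.2.2.2.2.2.le⟩
      rw [h4.fderiv_eq] at h3
      obtain ⟨z, hz, l, hl, hzl⟩ := h.crit y h1 h2 h3
      refine ⟨z, Finset.mem_union_left _ (Finset.mem_filter.2 ⟨hz, fun h6 => hy ?_⟩), l, hl, hzl⟩
      rw [h4.self_of_nhds, hzl, h.per l hl]
      exact ⟨h6.1.le, h6.2.le⟩
  · intro x hx h1 h2
    rcases Finset.mem_union.1 hx with hx | hx
    · exfalso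
      rw [Finset.mem_filter] at hx
      rw [(hold x hx.1 hx.2).self_of_nhds] at h1 h2
      exact hx.2 ⟨h1, h2⟩
    · exact hx

open Classical in
/-- **Small perturbations of a function on the domain.** -/
theorem sda_tot (h : Tot L q Q g R a Z) (hlt : α < β) (hα : α ∉ Z.image g) (hβ : β ∉ Z.image g)
    (hε : 0 < ε) : ∃ (r : ℝ) (f' : (ι → ℝ) → ℝ) (X : Finset (ι → ℝ)),
      SD L q Q g R a α β (Z.filter fun z => α < g z ∧ g z < β) ε r f' X ∧
      Tot L q Q f' R a ((Z.filter fun z => ¬ (α < g z ∧ g z < β)) ∪ X) ∧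
      (∀ z ∈ Z, ¬ (α < g z ∧ g z < β) → ∀ᶠ y in 𝓝 z, f' y = g y) ∧
      ∀ x ∈ (Z.filter fun z => ¬ (α < g z ∧ g z < β)) ∪ X, α < f' x → f' x < β → x ∈ X := by
  obtain ⟨r, f', X, hS⟩ := sda (h.band hlt (by convert hα) (by convert hβ)) hε
  refine ⟨r, f', X, ?_, ?_⟩
  · convert hS
  · exact SD.tot h (by convert hS)

end Pool.Agent.H18.TU
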